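import Pool.Agent.H46.CDCS.Planes

/-!
# MP_0c3aa4_co: eight-flows of `G / S` with a plane for each cycle of `S`

Let `G` be a cubic graph and `S` a 2-regular subgraph. If `G - E(S)` is connected and `G / S` has a
nowhere-zero 4-flow, then `G` has a cycle double cover which contains `S` (Results.MP_0c3aa4_co.
FewOddParts of the starting library). Here `G / S` has three even subgraphs which cover all its
edges (a nowhere-zero eight-flow), and every cycle `C` of `S` is given its own nonzero sum `D_C` of
the three even subgraphs, such that the vertices of `C` are linked off `S` and `D_C`: the values of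
the flow on a connected subgraph of `G - E(S)` that contains the vertices of `C` lie in a plane,
which may depend on `C`.
-/

set_option autoImplicit false

open Finset

namespace Pool.Agent.Results.MP_0c3aa4_co.PlanePerCircuit

open Pool.Agent.Helper347.Sab
open Pool.Agent.H46.CDCS.Planes
open Pool.Agent.Results.MP_0c3aa4_co.ThroughDominating (TwoRegular)
open Pool.Agent.Results.MP_0c3aa4_co.FewOddParts (Linked)

/-- Let `G` be a cubic graph and `S` a 2-regular subgraph of `G`. Let `A 0`, `A 1`, `A 2` be even
subgraphs which cover all edges outside `S`, and let every vertex `v` be given a set `n v` of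
indices, nonempty on `S` and the same for the vertices of a cycle of `S`. If any two adjacent
vertices `u`, `v` of a cycle of `S` are linked by a path of edges outside `S` that lie in an even
number of the sets `A i`, `i ∈ n u`, then `G` has a cycle double cover which contains `S`, and nine
even subgraphs, one of them `S`, that cover every edge exactly twice. -/
theorem result {V E : Type} [Fintype V] [DecidableEq V] [Fintype E] [DecidableEq E]
    (G : MGraph V E) (hG : IsCubic G) (S : Finset E) (hS : TwoRegular G S)
    (A : Fin 3 → Finset E) (n : V → Finset (Fin 3)) (hA : ∀ i v, Even (dg G (A i) v))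
    (hcov : ∀ e, e ∉ S → ∃ i, e ∈ A i)
    (hn : ∀ e ∈ S, ∀ u ∈ G.ends e, ∀ v ∈ G.ends e, n u = n v ∧ (n u).Nonempty ∧
      Linked G (Rest S A (n u)) u v) : Covered G S :=
  covered_of_planes G hG S hS A n hA hcov hn

end Pool.Agent.Results.MP_0c3aa4_co.PlanePerCircuit
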