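import Pool.Agent.H46.CDCS.Planes
import Pool.Agent.H46.CDCS.Glue

/-!
# MP_0c3aa4_co: at most sixteen vertices of odd degree

Let `G` be a bridgeless cubic graph, `S` a 2-regular subgraph and `D` an even subgraph such that the
vertices of every cycle of `S` lie in one component of `G - E(S) - E(D)` (for `D = ∅` this holds if
`G - E(S)` is connected). If `G / (S ∪ D)` has at most sixteen vertices of odd degree, then `G` has
a cycle double cover which contains `S`.

If `G / (S ∪ D)` has a nowhere-zero 4-flow, this is a case of `Pool.Agent.H46.CDCS.Planes`.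
Otherwise it has a Petersen quotient (theorem `main16` of the starting library): ten parts, each
joined to the rest of `G` by three edges. The graphs obtained by the contraction of the complement
of a part have at most eight vertices of odd degree after the contraction of `S ∪ D`, so they have
nowhere-zero 4-flows, and their covers are fitted into a cover of the Petersen graph by eight
colours (`Pool.Agent.H46.CDCS.Glue`).
-/

set_option autoImplicit false

open Finset

namespace Pool.Agent.Results.MP_0c3aa4_co.SixteenOdd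

open Pool.Agent.Helper347.Sab
open Pool.Agent.H46.CDCS.Planes
open Pool.Agent.Helper998.Near (Rch rch_symm even_iff_cast)
open Pool.Agent.V11198.Six
open Pool.Agent.TH362.TF (NZ PQ N1 IsPQ Cons Joins)
open Pool.Agent.Results.MP_0c3aa4_co.ThroughDominating (TwoRegular)
open Pool.Agent.Results.MP_0c3aa4_co.FewOddParts (Linked parts)

variable {V E : Type} [Fintype V] [DecidableEq V] [Fintype E] [DecidableEq E]

/-- the part of `D` off `S` -/
theorem even_off (G : MGraph V E) (hG : IsCubic G) (S : Finset E) (hS : TwoRegular G S)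
    (D : Finset E) (hD : ∀ v, Even (dg G D v))
    (hL : ∀ e ∈ S, ∀ u ∈ G.ends e, ∀ v ∈ G.ends e, Linked G (univ \ (S ∪ D)) u v) (v : V) :
    Even (dg G (D \ S) v) := by
  classical
  rcases hS v with h0 | h2
  · have h1 : dg G (D \ S) v = dg G D v := by
      unfold dg
      congr 1
      ext e
      rw [mem_filter, mem_filter, mem_sdiff]
      constructor
      · rintro ⟨⟨h3, _⟩, h4⟩; exact ⟨h3, h4⟩
      · rintro ⟨h3, h4⟩
        refine ⟨⟨h3, fun h5 => ?_⟩, h4⟩
        have := dg_pos_of_mem (G := G) h5 h4
        omega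
    rw [h1]
    exact hD v
  · have h1 : dg G (D \ S) v = 0 := by
      unfold dg
      rw [card_eq_zero, filter_eq_empty_iff]
      intro e he hev
      rw [mem_sdiff] at he
      -- an edge of `S` at `v`
      have h3 : 0 < dg G S v := by omega
      unfold dg at h3
      rw [card_pos] at h3
      obtain ⟨g, hg⟩ := h3
      rw [mem_filter] at hg
      obtain ⟨w, hw, hends⟩ : ∃ w, w ≠ v ∧ G.ends g = s(v, w) := by
        obtain ⟨a, b, hab, hends⟩ := exists_ends G g
        have h4 := hg.2
        rw [hends, Sym2.mem_iff] at h4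
        rcases h4 with rfl | rfl
        · exact ⟨b, hab.symm, hends⟩
        · exact ⟨a, hab, by rw [hends, Sym2.eq_swap]⟩
      have h5 := hL g hg.1 v (by rw [hends]; simp) w (by rw [hends]; simp)
      rcases Relation.ReflTransGen.cases_head h5 with h6 | ⟨c, ⟨f, hf, hfe⟩, _⟩
      · exact hw h6.symm
      · rw [mem_sdiff, mem_union, not_or] at hf
        have h7 := dg_sdiff (G := G) (X := univ) (Y := S) (subset_univ _) v
        rw [hG v, h2] at h7
        have h8 : dg G (univ \ S) v = 1 := by omega
        obtain ⟨g', hg'⟩ := card_eq_one.1 h8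
        have h9 : ∀ x, x ∉ S → v ∈ G.ends x → x = g' := by
          intro x hx hvx
          have : x ∈ (univ \ S).filter fun e => v ∈ G.ends e :=
            mem_filter.2 ⟨mem_sdiff.2 ⟨mem_univ _, hx⟩, hvx⟩
          rw [hg', mem_singleton] at this
          exact this
        have h10 := h9 e he.2 hev
        rw [h9 f hf.2.1 (by rw [hfe]; simp), ← h10] at hf
        exact hf.2.2 he.1
    rw [h1]
    decide

/-- the vertices of odd degree of `G / R` -/
theorem odd_le (G : MGraph V E) (R : Finset E) (al be : E → V) (hab : ∀ e, al e ≠ be e)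
    (hends : ∀ e, G.ends e = s(al e, be e)) (κ : V → V) (hκr : ∀ v, Rch G R v (κ v))
    (hκ : ∀ u v, κ u = κ v ↔ Rch G R u v)
    (h16 : (univ.filter fun x => κ x = x ∧
      Odd (∑ v ∈ univ.filter (fun v => κ v = x), dg G univ v)).card ≤ 16) :
    (TH362.TF.odd (κ ∘ al) (κ ∘ be) (univ \ R)).card ≤ 16 := by
  classical
  have hκS : ∀ e ∈ R, κ (al e) = κ (be e) := fun e he =>
    (hκ _ _).2 (Relation.ReflTransGen.single ⟨e, he, hends e⟩)
  have hpar : ∀ (x : V), (Even (∑ e ∈ univ \ R, en κ al be e x) ↔
      Even (∑ v ∈ univ.filter (fun v => κ v = x), dg G univ v)) := by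
    intro x
    rw [sum_dg_class G al be hab hends κ univ x]
    have h1 : ∑ e ∈ univ, en κ al be e x =
        ∑ e ∈ univ \ R, en κ al be e x + ∑ e ∈ univ ∩ R, en κ al be e x := by
      rw [← sum_union (disjoint_of_subset_right inter_subset_right sdiff_disjoint),
        sdiff_union_inter]
    have h2 : Even (∑ e ∈ univ ∩ R, en κ al be e x) := by
      apply Finset.even_sum
      intro e he
      unfold en
      rw [hκS e (mem_inter.1 he).2]
      split_ifs <;> decide
    rw [h1, Nat.even_add]
    exact ⟨fun h => ⟨fun _ => h2, fun _ => h⟩, fun h => h.2 h2⟩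
  refine le_trans (card_le_card ?_) h16
  intro x hx
  unfold TH362.TF.odd at hx
  rw [mem_filter] at hx
  have hx2 := hx.2
  rw [deg_def] at hx2
  have h1 : Odd (∑ v ∈ univ.filter (fun v => κ v = x), dg G univ v) := by
    rw [← Nat.not_even_iff_odd, ← hpar x, Nat.not_even_iff_odd]
    exact hx2
  rw [mem_filter]
  refine ⟨mem_univ _, ?_, h1⟩
  obtain ⟨w, hw⟩ : (univ.filter (fun v => κ v = x)).Nonempty := by
    rw [nonempty_iff_ne_empty]
    intro h
    rw [h, sum_empty] at h1
    exact absurd h1 (by decide)
  have hwx := (mem_filter.1 hw).2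
  have h2 := (hκ w (κ w)).2 (hκr w)
  rw [hwx] at h2
  exact h2.symm

/-- Let `G` be a cubic graph every edge of which lies in a circuit, `S` a 2-regular subgraph and `D`
an even subgraph such that any two adjacent vertices of a cycle of `S` are linked by a path in
`G - E(S) - E(D)`. If `G / (S ∪ D)` has at most sixteen vertices of odd degree (at most sixteen of
the components of the graph `(V, S ∪ D)` have an odd number of vertices), then `G` has a cycle
double cover which contains `S`, and nine even subgraphs, one of them `S`, that cover every edge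
exactly twice. -/
theorem result {V E : Type} [Fintype V] [DecidableEq V] [Fintype E] [DecidableEq E]
    (G : MGraph V E) (hG : IsCubic G) (hb : ∀ e, ∃ C, IsCircuit G C ∧ e ∈ C)
    (S : Finset E) (hS : TwoRegular G S) (D : Finset E) (hD : ∀ v, Even (dg G D v))
    (hL : ∀ e ∈ S, ∀ u ∈ G.ends e, ∀ v ∈ G.ends e, Linked G (univ \ (S ∪ D)) u v)
    (h16 : {X | X ∈ parts G (S ∪ D) ∧ Odd X.ncard}.ncard ≤ 16) : Covered G S := by
  classical
  -- the part of `D` off `S`
  have hD' := even_off G hG S hS D hD hL
  have hu : S ∪ (D \ S) = S ∪ D := union_sdiff_self_eq_union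
  have hdis : Disjoint (D \ S) S := sdiff_disjoint
  obtain ⟨D', hDD⟩ : ∃ D', D' = D \ S := ⟨_, rfl⟩
  rw [← hDD] at hD' hu hdis
  rw [← hu] at hL h16
  clear hDD hu hD
  obtain ⟨κ, hκr, hκ⟩ := exists_rep G (S ∪ D')
  have hends' : ∀ e, ∃ u v, u ≠ v ∧ G.ends e = s(u, v) := fun e => exists_ends G e
  choose al be hab hends using hends'
  have hcls : ∀ x y, {w | Linked G (S ∪ D') x w} = {w | Linked G (S ∪ D') y w} → κ x = κ y := by
    intro x y h
    have h1 : y ∈ {w | Linked G (S ∪ D') x w} := by
      rw [h]; exact Relation.ReflTransGen.refl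
    exact (hκ x y).2 h1
  have hev : ∀ e, ∃ D, Ev G D ∧ e ∈ D := by
    intro e
    obtain ⟨D, hD, he⟩ := hb e
    exact ⟨D, ev_of_circuit G D hD, he⟩
  have h16' : (univ.filter fun x => κ x = x ∧
      Odd (∑ v ∈ univ.filter (fun v => κ v = x), dg G univ v)).card ≤ 16 := by
    refine le_trans ?_ h16
    rw [← Set.ncard_coe_finset]
    apply Set.ncard_le_ncard_of_injOn (fun x => {w | Linked G (S ∪ D') x w})
    · intro x hx
      rw [mem_coe, mem_filter] at hx
      refine ⟨⟨x, rfl⟩, ?_⟩
      have h1 : ({w | Linked G (S ∪ D') x w} : Set V) =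
          ((univ.filter (fun v => κ v = x) : Finset V) : Set V) := by
        ext w
        rw [mem_coe, mem_filter]
        constructor
        · intro h
          have h2 := (hκ x w).2 h
          rw [hx.2.1] at h2
          exact ⟨mem_univ _, h2.symm⟩
        · rintro ⟨_, h⟩
          refine (hκ x w).1 ?_
          rw [hx.2.1, h]
      show Odd ({w | Linked G (S ∪ D') x w} : Set V).ncard
      rw [h1, Set.ncard_coe_finset]
      have h2 := hx.2.2
      rw [sum_congr rfl fun v _ => hG v, sum_const, smul_eq_mul, Nat.odd_mul] at h2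
      exact h2.1
    · intro x hx y hy hxy
      rw [mem_coe, mem_filter] at hx hy
      have := hcls _ _ hxy
      rwa [hx.2.1, hy.2.1] at this
  by_cases hPQ : ∃ c, IsPQ (κ ∘ al) (κ ∘ be) (univ \ (S ∪ D')) c
  · obtain ⟨c, hc⟩ := hPQ
    apply covered_of_eight G hG S hS
    apply Pool.Agent.H46.CDCS.glue G hG hev S hS D' hD' hdis al be hab hends κ hκr hκ c hc
      (odd_le G (S ∪ D') al be hab hends κ hκr hκ h16')
    intro e he
    refine Relation.ReflTransGen.mono ?_ _ _ (hL e he (al e) (by rw [hends e]; simp) (be e)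
      (by rw [hends e]; simp))
    rintro a b ⟨f, hf, hfe⟩
    rw [mem_sdiff, mem_union, not_or] at hf
    exact ⟨f, hf.2.1, hf.2.2, hfe⟩
  · push Not at hPQ
    obtain ⟨A, B, hA, hB, hcov⟩ := Pool.Agent.H46.CDCS.flows_of_reg G (S ∪ D') hev al be hab hends
      κ hκr hκ h16' hPQ
    exact covered_of_one G hG S hS D' A B hD' hA hB hL hcov

end Pool.Agent.Results.MP_0c3aa4_co.SixteenOdd
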